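import Pool.Agent.Y489.SP.Stm
import Pool.Agent.Y858.HS.Tr

/-!
# Project SP, job TRA: transfer of an action to a bi-Lipschitz chart (helper909)

Adaptation of `Pool.Agent.Y858.HS.Tr` (helper858).
-/

set_option autoImplicit false

open MeasureTheory Set Metric Filter Topology
open scoped ENNReal NNReal

namespace Pool.Agent.Y909.SP

open Pool.Agent.Y485.HS Pool.Agent.Y489.SP

/-- the arithmetic of the constants -/
lemma const_aux (K r : ℝ) (hK : 1 ≤ K) (hr0 : 0 < r) (hr1 : r ≤ 1) (n N : ℕ) :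
    K ^ n * (N * (r / K) ^ (1 / (N : ℝ) - 1)) ≤
      (⌈K ^ (n + 1) * N⌉₊ : ℝ) * r ^ (1 / ((⌈K ^ (n + 1) * N⌉₊ : ℕ) : ℝ) - 1) := by
  have hK0 : 0 < K := by linarith
  rcases Nat.eq_zero_or_pos N with h0 | hN
  · subst h0
    simp
  have hN' : (0 : ℝ) < N := by exact_mod_cast hN
  have hKn : (1 : ℝ) ≤ K ^ (n + 1) := one_le_pow₀ hK
  have h1 : K ^ (n + 1) * N ≤ (⌈K ^ (n + 1) * N⌉₊ : ℝ) := Nat.le_ceil _
  have h2 : (N : ℝ) ≤ (⌈K ^ (n + 1) * N⌉₊ : ℝ) := by nlinarith
  set N' : ℝ := (⌈K ^ (n + 1) * N⌉₊ : ℝ) with hN'd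
  have h3 : (r / K) ^ (1 / (N : ℝ) - 1) ≤ K * r ^ (1 / (N : ℝ) - 1) := by
    rw [div_eq_mul_inv, Real.mul_rpow hr0.le (by positivity), mul_comm]
    refine mul_le_mul_of_nonneg_right ?_ (by positivity)
    rw [Real.inv_rpow hK0.le, ← Real.rpow_neg hK0.le]
    calc K ^ (-(1 / (N : ℝ) - 1)) ≤ K ^ (1 : ℝ) := by
          refine Real.rpow_le_rpow_of_exponent_le hK ?_
          have : 0 < 1 / (N : ℝ) := by positivity
          linarith
      _ = K := Real.rpow_one K
  have h4 : r ^ (1 / (N : ℝ) - 1) ≤ r ^ (1 / N' - 1) := by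
    refine Real.rpow_le_rpow_of_exponent_ge hr0 hr1 ?_
    have : 1 / N' ≤ 1 / (N : ℝ) := one_div_le_one_div_of_le hN' h2
    linarith
  calc K ^ n * (N * (r / K) ^ (1 / (N : ℝ) - 1))
      ≤ K ^ n * (N * (K * r ^ (1 / (N : ℝ) - 1))) := by gcongr
    _ = K ^ (n + 1) * N * r ^ (1 / (N : ℝ) - 1) := by ring
    _ ≤ N' * r ^ (1 / N' - 1) := by gcongr

theorem t_TRA : S_SOB → S_TRA := by
  classical
  intro hSOB n hn X _ _ _ H _ _ _ _ U ψ L hψ hBU hact hAdm
  obtain ⟨hUo, hVo, hbl⟩ := hψ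
  -- a constant, at least one
  obtain ⟨K, hK⟩ : ∃ K : ℝ≥0, K = max (Real.toNNReal L) 1 := ⟨_, rfl⟩
  have hK1' : (1 : ℝ≥0) ≤ K := by rw [hK]; exact le_max_right _ _
  have hK1 : (1 : ℝ) ≤ K := by exact_mod_cast hK1'
  have hLK : L ≤ (K : ℝ) := by
    have h1 : Real.toNNReal L ≤ K := by rw [hK]; exact le_max_left _ _
    exact (Real.le_coe_toNNReal L).trans (by exact_mod_cast h1)
  have hlip : LipschitzOnWith K ψ U := by
    refine LipschitzOnWith.of_dist_le_mul fun a ha b hb => ?_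
    exact ((hbl a ha b hb).1).trans (mul_le_mul_of_nonneg_right hLK dist_nonneg)
  have h0 : (0 : E n) ∈ BB n := by
    unfold BB
    exact mem_closedBall_self (by norm_num)
  obtain ⟨x0, hx0U, hx0⟩ := hBU h0
  have : Nonempty X := ⟨x0⟩
  obtain ⟨θ, hθd⟩ : ∃ θ : E n → X, θ = Function.invFunOn ψ U := ⟨_, rfl⟩
  have hθU : ∀ y ∈ BB n, θ y ∈ U := by
    intro y hy
    obtain ⟨x, hx, hxy⟩ := hBU hy
    rw [hθd]
    exact Function.invFunOn_mem ⟨x, hx, hxy⟩
  have hψθ : ∀ y ∈ BB n, ψ (θ y) = y := by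
    intro y hy
    obtain ⟨x, hx, hxy⟩ := hBU hy
    rw [hθd]
    exact Function.invFunOn_eq ⟨x, hx, hxy⟩
  have hθψ : ∀ x ∈ U, θ (ψ x) = x := by
    intro x hx
    have h1 : θ (ψ x) ∈ U := by
      rw [hθd]; exact Function.invFunOn_mem ⟨x, hx, rfl⟩
    have h2 : ψ (θ (ψ x)) = ψ x := by
      rw [hθd]; exact Function.invFunOn_eq ⟨x, hx, rfl⟩
    have h3 := (hbl _ h1 x hx).2
    rw [h2, dist_self, mul_zero] at h3
    exact dist_le_zero.1 h3
  have hθlip : LipschitzOnWith K θ (BB n) := by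
    refine LipschitzOnWith.of_dist_le_mul fun a ha b hb => ?_
    have h3 := (hbl _ (hθU a ha) _ (hθU b hb)).2
    rw [hψθ a ha, hψθ b hb] at h3
    exact h3.trans (mul_le_mul_of_nonneg_right hLK dist_nonneg)
  have hθc : ContinuousOn θ (BB n) := hθlip.continuousOn
  have hact' : ∀ h : H, ∀ y ∈ BB n, h • θ y ∈ U ∧ dist (ψ (h • θ y)) y ≤ 1 / 4 := by
    intro h y hy
    have := hact h (θ y) (hθU y hy) (by rw [hψθ y hy]; exact hy)
    rwa [hψθ y hy] at this
  have hLA : LocAct n H (fun h y => ψ (h • θ y)) := by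
    refine ⟨?_, ?_, ?_, ?_⟩
    · -- continuity
      have h1 : ContinuousOn (fun q : H × E n => q.1 • θ q.2) (univ ×ˢ BB n) := by
        refine ContinuousOn.smul continuousOn_fst ?_
        exact hθc.comp continuousOn_snd fun q hq => hq.2
      exact hlip.continuousOn.comp h1 fun q hq => (hact' q.1 q.2 hq.2).1
    · intro x hx
      simp only [one_smul]
      exact hψθ x hx
    · intro h k x hx hk
      rw [hθψ _ (hact' k x hx).1, mul_smul]
    · intro h x hx
      exact (hact' h x hx).2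
  refine ⟨fun h y => ψ (h • θ y), hLA, ?_, ?_⟩
  · intro h
    obtain ⟨C, hC⟩ : ∃ C : Set X, C = θ '' BB n := ⟨_, rfl⟩
    have hCc : IsCompact C := by
      rw [hC]
      exact (isCompact_closedBall _ _).image_of_continuousOn hθc
    have hCR : C ⊆ Reg n X := by
      rw [hC]
      rintro _ ⟨y, hy, rfl⟩
      exact ⟨U, ψ, L, hθU y hy, hUo, hVo, hbl⟩
    have hCU : C ⊆ U := by
      rw [hC]
      rintro _ ⟨y, hy, rfl⟩
      exact hθU y hy
    rcases hAdm h with hSca | ⟨q, hq, hSob⟩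
    · -- the discrete case
      obtain ⟨c, hc⟩ := exists_nat_ge ((K : ℝ) ^ 2)
      obtain ⟨N, hN⟩ := hSca C hCR hCc c
      refine ⟨⌈(K : ℝ) ^ (n + 1) * N⌉₊, ?_⟩
      intro r hr0 hr1 A hA3 hAs
      have hK0 : (0 : ℝ) < K := by linarith
      have hr' : 0 < r / K := by positivity
      have hr'1 : r / K ≤ 1 := by
        rw [div_le_one hK0]
        linarith
      have h3B : closedBall (0 : E n) 3 ⊆ BB n := closedBall_subset_closedBall (by norm_num)
      have hinj : InjOn θ (BB n) := by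
        intro a ha b hb hab
        rw [← hψθ a ha, ← hψθ b hb, hab]
      have hmain := hN (r / K) hr' hr'1 (A.image θ) (by
          intro a ha
          obtain ⟨a0, ha0, rfl⟩ := Finset.mem_image.1 ha
          rw [hC]
          exact mem_image_of_mem θ (h3B (hA3 a0 ha0))) (by
          intro a ha b hb hab
          obtain ⟨a0, ha0, rfl⟩ := Finset.mem_image.1 ha
          obtain ⟨b0, hb0, rfl⟩ := Finset.mem_image.1 hb
          have hne : a0 ≠ b0 := fun h => hab (by rw [h])
          have h1 := hAs a0 ha0 b0 hb0 hne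
          have h2 := hlip.dist_le_mul _ (hθU a0 (h3B (hA3 a0 ha0))) _
            (hθU b0 (h3B (hA3 b0 hb0)))
          rw [hψθ a0 (h3B (hA3 a0 ha0)), hψθ b0 (h3B (hA3 b0 hb0))] at h2
          rw [div_le_iff₀ hK0]
          linarith)
      rw [Finset.sum_image (fun a ha b hb hab =>
        hinj (h3B (hA3 a ha)) (h3B (hA3 b hb)) hab)] at hmain
      have hterm : ∀ a ∈ A, Metric.diam ((fun y => ψ (h • θ y)) ''
          (closedBall a r ∩ closedBall 0 3)) ^ n ≤
          (K : ℝ) ^ n * Metric.diam ((fun x : X => h • x) ''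
            (closedBall (θ a) (c * (r / K)) ∩ C)) ^ n := by
        intro a ha
        rw [← mul_pow]
        refine pow_le_pow_left₀ diam_nonneg ?_ n
        refine diam_le_of_forall_dist_le (mul_nonneg hK0.le diam_nonneg) ?_
        rintro _ ⟨x, hx, rfl⟩ _ ⟨y, hy, rfl⟩
        have haB : a ∈ BB n := h3B (hA3 a ha)
        have hin : ∀ z ∈ closedBall a r ∩ closedBall (0 : E n) 3,
            θ z ∈ closedBall (θ a) (c * (r / K)) ∩ C := by
          intro z hz
          refine ⟨?_, hC ▸ mem_image_of_mem θ (h3B hz.2)⟩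
          rw [mem_closedBall]
          have h1 := hθlip.dist_le_mul z (h3B hz.2) a haB
          have h2 : dist z a ≤ r := hz.1
          calc dist (θ z) (θ a) ≤ K * dist z a := h1
            _ ≤ K * r := by gcongr
            _ = (K : ℝ) ^ 2 * (r / K) := by field_simp
            _ ≤ c * (r / K) := by gcongr
        have hbdd : Bornology.IsBounded ((fun x : X => h • x) ''
            (closedBall (θ a) (c * (r / K)) ∩ C)) :=
          ((hCc.image (continuous_const_smul h)).isBounded).subset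
            (image_mono inter_subset_right)
        calc dist (ψ (h • θ x)) (ψ (h • θ y)) ≤ K * dist (h • θ x) (h • θ y) :=
              hlip.dist_le_mul _ (hact' h x (h3B hx.2)).1 _ (hact' h y (h3B hy.2)).1
          _ ≤ K * Metric.diam ((fun x : X => h • x) ''
              (closedBall (θ a) (c * (r / K)) ∩ C)) := by
            gcongr
            exact dist_le_diam_of_mem hbdd (mem_image_of_mem _ (hin x hx))
              (mem_image_of_mem _ (hin y hy))
      calc ∑ a ∈ A, Metric.diam ((fun y => ψ (h • θ y)) '' (closedBall a r ∩ closedBall 0 3)) ^ n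
          ≤ ∑ a ∈ A, (K : ℝ) ^ n * Metric.diam ((fun x : X => h • x) ''
            (closedBall (θ a) (c * (r / K)) ∩ C)) ^ n := Finset.sum_le_sum hterm
        _ = (K : ℝ) ^ n * ∑ a ∈ A, Metric.diam ((fun x : X => h • x) ''
            (closedBall (θ a) (c * (r / K)) ∩ C)) ^ n := by rw [Finset.mul_sum]
        _ ≤ (K : ℝ) ^ n * (N * (r / K) ^ (1 / (N : ℝ) - 1)) := by gcongr
        _ ≤ _ := const_aux K r hK1 hr0 hr1 n N
    · -- the Sobolev case
      have hn2 : (2 : ℝ) ≤ n := by exact_mod_cast hn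
      have hq0 : 0 < q := by linarith
      refine hSOB n hn H (fun h y => ψ (h • θ y)) hLA h q hq ?_
      obtain ⟨g, hgm, hgH, hgE⟩ := hSob C hCR hCc
      have hBm : MeasurableSet (BB n) := isClosed_closedBall.measurableSet
      obtain ⟨θ', hθ'⟩ : ∃ θ' : E n → X, θ' = (BB n).piecewise θ (fun _ => x0) := ⟨_, rfl⟩
      have hθ'm : Measurable θ' := by
        rw [hθ']
        exact hθc.measurable_piecewise continuousOn_const hBm
      have hθ'e : ∀ y ∈ BB n, θ' y = θ y := by
        intro y hy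
        rw [hθ']
        exact piecewise_eq_of_mem _ _ _ hy
      obtain ⟨g', hg'⟩ : ∃ g' : E n → ℝ≥0∞, g' = fun y => (K : ℝ≥0∞) * (K : ℝ≥0∞) * g (θ' y) :=
        ⟨_, rfl⟩
      have hg'm : Measurable g' := by
        rw [hg']
        exact (hgm.comp hθ'm).const_mul _
      have hHaj : Haj (BB n) (fun y => ψ (h • θ y)) g' := by
        intro x hx y hy
        have h1 := hlip (hact' h x hx).1 (hact' h y hy).1
        have h2 := hgH (θ x) (hC ▸ mem_image_of_mem θ hx) (θ y) (hC ▸ mem_image_of_mem θ hy)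
        have h3 := hθlip hx hy
        rw [hg']
        simp only
        rw [hθ'e x hx, hθ'e y hy]
        calc edist (ψ (h • θ x)) (ψ (h • θ y)) ≤ K * edist (h • θ x) (h • θ y) := h1
          _ ≤ K * (edist (θ x) (θ y) * (g (θ x) + g (θ y))) := by gcongr
          _ ≤ K * ((K * edist x y) * (g (θ x) + g (θ y))) := by gcongr
          _ = edist x y * (K * K * g (θ x) + K * K * g (θ y)) := by ring
      have hEn : ∫⁻ y in BB n, g' y ^ q < ∞ := by
        obtain ⟨c, hc⟩ := Pool.Agent.Y858.HS.vol_haus n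
        have hmap : (volume.restrict (BB n)).map θ' ≤
            ((c : ℝ≥0∞) * (K : ℝ≥0∞) ^ n) • (Measure.hausdorffMeasure (n : ℝ)).restrict C := by
          refine Measure.le_iff.2 fun A hA => ?_
          rw [Measure.map_apply hθ'm hA, Measure.restrict_apply (hθ'm hA), Measure.smul_apply,
            Measure.restrict_apply hA, smul_eq_mul]
          have hsub : θ' ⁻¹' A ∩ BB n ⊆ ψ '' (A ∩ C) := by
            rintro y ⟨hyA, hyB⟩
            refine ⟨θ y, ⟨?_, hC ▸ mem_image_of_mem θ hyB⟩, hψθ y hyB⟩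
            rw [← hθ'e y hyB]
            exact hyA
          have hh := (hlip.mono
            (inter_subset_right.trans hCU : A ∩ C ⊆ U)).hausdorffMeasure_image_le
            (d := (n : ℝ)) (Nat.cast_nonneg n)
          calc volume (θ' ⁻¹' A ∩ BB n) ≤ volume (ψ '' (A ∩ C)) := measure_mono hsub
            _ = c * Measure.hausdorffMeasure (n : ℝ) (ψ '' (A ∩ C)) := hc _
            _ ≤ c * ((K : ℝ≥0∞) ^ (n : ℝ) * Measure.hausdorffMeasure (n : ℝ) (A ∩ C)) := by
              gcongr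
            _ = c * (K : ℝ≥0∞) ^ n * Measure.hausdorffMeasure (n : ℝ) (A ∩ C) := by
              rw [ENNReal.rpow_natCast, mul_assoc]
        have h1 : ∫⁻ y in BB n, g (θ' y) ^ q < ∞ := by
          have h2 : ∫⁻ y in BB n, g (θ' y) ^ q =
              ∫⁻ x, g x ^ q ∂((volume.restrict (BB n)).map θ') :=
            (lintegral_map (hgm.pow_const q) hθ'm).symm
          rw [h2]
          refine lt_of_le_of_lt (lintegral_mono' hmap le_rfl) ?_
          rw [lintegral_smul_measure, smul_eq_mul]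
          refine ENNReal.mul_lt_top ?_ hgE
          exact ENNReal.mul_lt_top ENNReal.coe_lt_top (ENNReal.pow_lt_top ENNReal.coe_lt_top)
        have h3 : ∫⁻ y in BB n, g' y ^ q =
            ((K : ℝ≥0∞) * (K : ℝ≥0∞)) ^ q * ∫⁻ y in BB n, g (θ' y) ^ q := by
          rw [hg']
          have hm2 : Measurable (fun y => g (θ' y) ^ q) := (hgm.comp hθ'm).pow_const q
          rw [← lintegral_const_mul _ hm2]
          simp only [ENNReal.mul_rpow_of_nonneg _ _ hq0.le]
        rw [h3]
        exact ENNReal.mul_lt_top (ENNReal.rpow_lt_top_of_nonneg hq0.le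
          (ENNReal.mul_lt_top ENNReal.coe_lt_top ENNReal.coe_lt_top).ne) h1
      exact ⟨g', hg'm, hHaj, hEn⟩
  · intro h x hx _
    simp only
    rw [hθψ x hx]

end Pool.Agent.Y909.SP
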